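import Pool.Agent.Run7.h749.MKC.Basic

/-!
# Injective homomorphism counts into the planes over prime fields need not converge

`Pt K` and `Ln K` are the one- and two-dimensional subspaces of `K^3`, that is, the points and
lines of the projective plane over `K`.  The Moebius-Kantor configuration has an injective
label-preserving homomorphism into the incidence graph of the plane over the prime field of order
`p` exactly when `x^2 - x + 1` has a root modulo `p`.
-/

namespace Pool.Agent.Results.MP_5e7574_co.PrimePlanes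

open Pool.Agent.Run7.h749.MKC Filter Topology

/-- The number of injective label-preserving homomorphisms from the bipartite graph with classes
`Fin m`, `Fin n` and edge relation `E` to the point-line incidence graph of the projective plane
over `K`: pairs of an injective map into points and an injective map into lines which send every
edge to an incident pair. -/
noncomputable def injCount {m n : ℕ} (E : Fin m → Fin n → Prop) (K : Type) [CommRing K] : ℕ :=
  Nat.card {fg : (Fin m → Pt K) × (Fin n → Ln K) //
    Function.Injective fg.1 ∧ Function.Injective fg.2 ∧ ∀ a b, E a b → (fg.1 a).1 ≤ (fg.2 b).1}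

/-- `log_p inj(H, G_p)` as an extended real number, with `log_p 0 = -∞`. -/
noncomputable def logInj {m n : ℕ} (E : Fin m → Fin n → Prop) (p : ℕ) : EReal :=
  if injCount E (ZMod p) = 0 then ⊥ else ((Real.logb p (injCount E (ZMod p)) : ℝ) : EReal)

lemma logInj_bot {p : ℕ} (hp : p.Prime) (h2 : p % 3 = 2) : logInj MK p = ⊥ := by
  have := Fact.mk hp
  unfold logInj
  rw [if_pos]
  unfold injCount
  have : IsEmpty {fg : (Fin 8 → Pt (ZMod p)) × (Fin 8 → Ln (ZMod p)) //
      Function.Injective fg.1 ∧ Function.Injective fg.2 ∧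
        ∀ a b, MK a b → (fg.1 a).1 ≤ (fg.2 b).1} := by
    constructor
    rintro ⟨⟨f, g⟩, hf, hg, h⟩
    obtain ⟨y, hy⟩ := exists_root f g hf hg h
    exact no_root hp h2 y hy
  exact Nat.card_of_isEmpty

lemma logInj_nonneg {p : ℕ} (hp : p.Prime) (h1 : p % 3 = 1) : 0 ≤ logInj MK p := by
  have := Fact.mk hp
  have hpos : 0 < injCount MK (ZMod p) := by
    unfold injCount
    obtain ⟨x, hx⟩ := exists_x hp h1
    obtain ⟨f, g, hf, hg, h⟩ := exists_realisation x hx
    have hne : Nonempty {fg : (Fin 8 → Pt (ZMod p)) × (Fin 8 → Ln (ZMod p)) //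
      Function.Injective fg.1 ∧ Function.Injective fg.2 ∧
        ∀ a b, MK a b → (fg.1 a).1 ≤ (fg.2 b).1} := ⟨⟨(f, g), hf, hg, h⟩⟩
    have hfs : Finite (Submodule (ZMod p) (Fin 3 → ZMod p)) :=
      Finite.of_injective (fun W => (W : Set (Fin 3 → ZMod p))) SetLike.coe_injective
    exact Nat.card_pos
  unfold logInj
  rw [if_neg hpos.ne']
  have h1 : (1 : ℝ) ≤ (injCount MK (ZMod p) : ℝ) := by exact_mod_cast hpos
  have h2 : (1 : ℝ) < (p : ℝ) := by exact_mod_cast hp.one_lt
  have h3 : 0 ≤ Real.logb (p : ℝ) (injCount MK (ZMod p)) := Real.logb_nonneg h2 h1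
  exact_mod_cast h3

lemma frequently_prime {S : ℕ → Prop} (h : ∀ N : ℕ, ∃ p, N ≤ p ∧ p.Prime ∧ S p) :
    ∃ᶠ k in atTop, S (Nat.nth Nat.Prime k) := by
  rw [Filter.frequently_atTop]
  intro k
  obtain ⟨p, hp1, hp2, hp3⟩ := h (Nat.nth Nat.Prime k)
  refine ⟨Nat.count Nat.Prime p, ?_, ?_⟩
  · have := Nat.count_monotone Nat.Prime hp1
    rwa [Nat.count_nth_of_infinite Nat.infinite_setOfPred_prime] at this
  · rwa [Nat.nth_count hp2]

/-- There is a bipartite graph `H` with an edge (the incidence graph of the Moebius-Kantor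
configuration) for which the sequence `log_p inj(H, G_p)`, with `p` running through the primes in
increasing order, does not converge in `[-∞, ∞]`: its lower limit is smaller than its upper
limit. -/
theorem result : ∃ (m n : ℕ) (E : Fin m → Fin n → Prop), (∃ a b, E a b) ∧
    liminf (fun k : ℕ => logInj E (Nat.nth Nat.Prime k)) atTop <
      limsup (fun k : ℕ => logInj E (Nat.nth Nat.Prime k)) atTop ∧
    ¬ ∃ L : EReal, Tendsto (fun k : ℕ => logInj E (Nat.nth Nat.Prime k)) atTop (𝓝 L) := by
  have hlt : liminf (fun k : ℕ => logInj MK (Nat.nth Nat.Prime k)) atTop <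
      limsup (fun k : ℕ => logInj MK (Nat.nth Nat.Prime k)) atTop := by
    have h1 : liminf (fun k : ℕ => logInj MK (Nat.nth Nat.Prime k)) atTop ≤ ⊥ := by
      apply liminf_le_of_frequently_le'
      apply frequently_prime (S := fun p => logInj MK p ≤ ⊥)
      intro N
      obtain ⟨p, hp1, hp2, hp3⟩ := Nat.forall_exists_prime_gt_and_modEq (q := 3) (a := 2) N
        (by norm_num) (by norm_num)
      exact ⟨p, hp1.le, hp2, (logInj_bot hp2 hp3).le⟩
    have h2 : (0 : EReal) ≤ limsup (fun k : ℕ => logInj MK (Nat.nth Nat.Prime k)) atTop := by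
      apply le_limsup_of_frequently_le'
      apply frequently_prime (S := fun p => 0 ≤ logInj MK p)
      intro N
      obtain ⟨p, hp1, hp2, hp3⟩ := Nat.forall_exists_prime_gt_and_modEq (q := 3) (a := 1) N
        (by norm_num) (by norm_num)
      exact ⟨p, hp1.le, hp2, logInj_nonneg hp2 hp3⟩
    exact lt_of_le_of_lt h1 (lt_of_lt_of_le EReal.bot_lt_zero h2)
  refine ⟨8, 8, MK, ⟨0, 0, by decide⟩, hlt, ?_⟩
  rintro ⟨L, hL⟩
  rw [hL.liminf_eq, hL.limsup_eq] at hlt
  exact lt_irrefl _ hlt

end Pool.Agent.Results.MP_5e7574_co.PrimePlanes
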